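import Pool.Agent.Work.MP_df328f_co.Main

namespace Pool.Agent.Results.MP_df328f_co.Exact

open Pool.Agent.Work.MP_df328f_co

/-- For all `t ≥ 2` and `l ≥ 3`, `value t l` is the least `n` such that every `t`-edge colouring
of `K_n` contains a cycle of length `l` using at most `t - 1` colours. -/
theorem result :
    ∀ t l : ℕ, 2 ≤ t → 3 ≤ l → IsLeast {n : ℕ | Arrows t l n} (value t l) :=
  main

end Pool.Agent.Results.MP_df328f_co.Exact
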